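import Pool.Agent.helper33.SP.SpecC1

/-! # Project sp, module UI2: gap and pivotal site give robust four arms -/

namespace TP

open DP MeasureTheory

theorem UI2_mon (i : ℕ) : Mon true (Fc i) := by
  refine Mon.ev ?_
  rintro c c' h ⟨u, v, hu, hv, hcon⟩
  exact ⟨u, v, hu, hv, hcon.colour_mono fun w _ => h w⟩

theorem UI2_twoCl_congr {c c' : V → Bool} {k : Bool} {x : V} {m n : ℕ}
    (h : ∀ w ∈ ann x m n, c w = c' w) (ht : twoCl c k x m n) : twoCl c' k x m n := by
  obtain ⟨u, hu, v, hv, ⟨u', hu', h1⟩, ⟨v', hv', h2⟩, h3⟩ := ht
  exact ⟨u, hu, v, hv, ⟨u', hu', (Conn.congr h).1 h1⟩, ⟨v', hv', (Conn.congr h).1 h2⟩,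
    fun h4 => h3 ((Conn.congr h).2 h4)⟩

theorem UI2_col (b : V → Bool) (w : V) (k : Bool) :
    col (Function.update b (br w) k) = rc (col b) w k := by
  classical
  funext u
  unfold col rc
  by_cases h : br u = br w
  · rw [if_pos h, h, Function.update_self]
  · rw [if_neg h, Function.update_of_ne h]

/-- UI2 -/
theorem UI2 (h1 : UI1_stmt) : UI2_stmt := by
  classical
  intro i b x v r m n N hrm hmn hnN hbox hv hxv hgap
  obtain ⟨hvV, b', b'', hbb, hb', hb''⟩ := hv
  have hmon := UI2_mon i
  -- the values at the pivotal site
  have hvf : Function.update b v false ∉ Fc i := by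
    intro h
    refine hb'' (hmon _ _ ?_ h)
    intro u hu
    rcases eq_or_ne u v with rfl | hne
    · rw [Function.update_self] at hu
      exact absurd hu (by decide)
    · rw [Function.update_of_ne hne] at hu
      rw [(hbb u (by simpa using hne)).2]
      exact hu
  have hvt : Function.update b v true ∈ Fc i := by
    refine hmon _ _ ?_ hb'
    intro u hu
    rcases eq_or_ne u v with rfl | hne
    · rw [Function.update_self]
    · rw [Function.update_of_ne hne]
      rw [(hbb u (by simpa using hne)).1] at hu
      exact hu
  -- the sides of the rectangle are far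
  have hN0 : x ∈ box x N := by
    show sd x x ≤ N
    rw [sd_eq_zero.2 rfl]
    exact Nat.zero_le _
  have hleft : (1 : ℤ) ≤ x.1 - N := by
    have h : ((x.1 - N, x.2) : V) ∈ box x N := by
      show sd x (x.1 - N, x.2) ≤ N
      unfold sd
      simp
    exact (hbox h).1
  have hright : x.1 + N ≤ 2 * 2 ^ i := by
    have h : ((x.1 + N, x.2) : V) ∈ box x N := by
      show sd x (x.1 + N, x.2) ≤ N
      unfold sd
      simp
    exact (hbox h).2.1
  have hfar1 : ∀ u : V, u.1 = 1 → N ≤ sd x u := by
    intro u hu
    unfold sd
    omega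
  have hfar2 : ∀ u : V, u.1 = 2 * 2 ^ i → N ≤ sd x u := by
    intro u hu
    unfold sd
    rw [hu]
    omega
  -- the brick of a site of the annulus is not pivotal
  have hz : ∀ w ∈ ann x m n, b ∉ Piv {br w} (Fc i) := by
    intro w hw hpiv
    have hw1 : m ≤ sd x w := hw.1
    have hw2 : sd x w ≤ n := hw.2
    have hwr := hbox (show w ∈ box x N from (by show sd x w ≤ N; omega))
    have hf := br_fst w
    have hs := br_snd w
    refine hgap (br w) ⟨?_, hpiv⟩ ⟨?_, ?_⟩
    · unfold VV
      rw [Finset.mem_filter, Finset.mem_product, Finset.mem_Icc, Finset.mem_Icc]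
      obtain ⟨a1, a2, a3, a4⟩ := hwr
      refine ⟨⟨⟨?_, ?_⟩, ?_, ?_⟩, br_even w⟩
      · rcases hf with h | h <;> rw [h] <;> linarith
      · rcases hf with h | h <;> rw [h] <;> linarith
      · rw [hs]; exact a3
      · rw [hs]; exact a4
    · unfold sd at hw1 ⊢
      omega
    · unfold sd at hw2 ⊢
      omega
  have hagree : ∀ (c : V → Bool) (k : Bool) (u : V), r + 1 < sd x u →
      col (Function.update c v k) u = col c u := by
    intro c k u hu
    unfold col
    rw [Function.update_of_ne]
    intro h
    have hf := br_fst u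
    have hs := br_snd u
    rw [h] at hf hs
    unfold sd at hu hxv
    omega
  constructor
  · intro hbF w hw
    set b1 := Function.update b (br w) false with hb1
    set b2 := Function.update b1 v false with hb2
    have hb1F : b1 ∈ Fc i := by
      by_contra h
      refine hz w hw ⟨b, b1, ?_, hbF, h⟩
      intro u hu
      exact ⟨rfl, Function.update_of_ne (by simpa using hu) _ _⟩
    have hb2F : b2 ∉ Fc i := by
      intro h
      refine hvf (hmon _ _ ?_ h)
      intro u hu
      rcases eq_or_ne u v with rfl | hne
      · rw [hb2, Function.update_self] at hu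
        exact absurd hu (by decide)
      · rw [hb2, Function.update_of_ne hne, hb1] at hu
        rw [Function.update_of_ne hne]
        rcases eq_or_ne u (br w) with rfl | hne'
        · rw [Function.update_self] at hu
          exact absurd hu (by decide)
        · rwa [Function.update_of_ne hne'] at hu
    obtain ⟨u, v', hu, hv', hcon⟩ := hb1F
    have key := h1 (col b1) (col b2) true (rect 1 (2 * 2 ^ i) 0 (hh (2 ^ i))) x (r + 1) N u v'
      (by omega) hbox (hfar1 u hu) (hfar2 v' hv') (fun t ht => (hagree b1 false t ht).symm) hcon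
      (fun h => hb2F ⟨u, v', hu, hv', h⟩)
    rw [hb1, UI2_col] at key
    exact key
  · intro hbF w hw
    set b1 := Function.update b (br w) true with hb1
    set b2 := Function.update b1 v true with hb2
    have hb1F : b1 ∉ Fc i := by
      intro h
      refine hz w hw ⟨b1, b, ?_, h, hbF⟩
      intro u hu
      exact ⟨Function.update_of_ne (by simpa using hu) _ _, rfl⟩
    have hb2F : b2 ∈ Fc i := by
      refine hmon _ _ ?_ hvt
      intro u hu
      rcases eq_or_ne u v with rfl | hne
      · rw [hb2, Function.update_self]
      · rw [Function.update_of_ne hne] at hu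
        rw [hb2, Function.update_of_ne hne, hb1]
        rcases eq_or_ne u (br w) with rfl | hne'
        · rw [Function.update_self]
        · rwa [Function.update_of_ne hne']
    obtain ⟨u, v', hu, hv', hcon⟩ := hb2F
    have key := h1 (col b2) (col b1) true (rect 1 (2 * 2 ^ i) 0 (hh (2 ^ i))) x (r + 1) N u v'
      (by omega) hbox (hfar1 u hu) (hfar2 v' hv') (fun t ht => hagree b1 true t ht) hcon
      (fun h => hb1F ⟨u, v', hu, hv', h⟩)
    have key2 : twoCl (col b1) true x (r + 1 + 1) N := UI2_twoCl_congr
      (fun t ht => hagree b1 true t (by have h5 := ht.1; omega)) key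
    rw [hb1, UI2_col] at key2
    exact key2

end TP
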