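import Pool.Agent.helper61.SP.SpecDX

/-! # Project sp, module DX2: deterministic facts on the revealed set -/

namespace TP

open DP MeasureTheory

theorem DX2_black {c : V → Bool} {w h : ℤ} {v : V} (hv : v ∈ KT c w h) : c v = true := by
  obtain ⟨-, t, -, ht⟩ := hv
  exact ht.colour_left

theorem DX2_WL {c : V → Bool} {w h : ℤ} {u x : V} (hu : u.1 = 0)
    (hx : Conn c false (rect 0 w 0 h) u x) : Con (RV c w h \ KT c w h) u x := by
  refine Con.mono ?_ (Con.cluster hx)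
  intro z hz
  have hz1 : z ∈ WL c w h := ⟨u, hu, hz⟩
  have hz2 : z ∈ rect 0 w 0 h ∧ c z = false := Con.mem_right hz
  refine ⟨⟨hz2.1, Or.inr (Or.inl hz1)⟩, fun hk => ?_⟩
  have := DX2_black hk
  rw [hz2.2] at this
  exact absurd this (by decide)

/-- DX2 -/
theorem DX2 : DX2_stmt := by
  constructor
  · intro c w h hw hh
    refine ⟨fun v hv => hv.1, fun v hv => hv.1, ?_, ?_, ?_⟩
    · intro y hy hyh
      exact ⟨⟨le_rfl, hw, hy, hyh⟩, Or.inl rfl⟩
    · rintro z ⟨hz, t, ht, hzt⟩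
      refine ⟨t, ht, ?_⟩
      refine Con.mono ?_ (Con.cluster hzt)
      intro x hx
      have hx2 : x ∈ RV c w h ∧ c x = true := Con.mem_right hx
      refine ⟨hx2.1, t, ht, ?_⟩
      exact (DP.Con.symm hx).trans hzt
    · intro x hx hxk
      rcases hx.2 with h0 | ⟨u, hu, hux⟩ | ⟨v, ⟨u, hu, huv⟩, hvx⟩
      · exact ⟨x, h0, DP.Con.refl ⟨hx, hxk⟩⟩
      · exact ⟨u, hu, DX2_WL hu hux⟩
      · exact ⟨u, hu, (DX2_WL hu huv).step hvx ⟨hx, hxk⟩⟩
  · intro β c w h s hβ hc hw hh hs hex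
    obtain ⟨v', hv', v, hv, hvv, z', y, hvz, hy, hcon⟩ := hex
    have hcv' : c v' = true := DX2_black hv'
    have hcv : c v = true := (hc v v' hvv).trans hcv'
    obtain ⟨hv'r, t, ht, hvt⟩ := hv'
    have hsub : RV c w h ⊆ rect 0 w (-s) h := by
      intro x hx
      obtain ⟨a1, a2, a3, a4⟩ := hx.1
      exact ⟨a1, a2, by linarith, a4⟩
    have h1 : Conn c true (rect 0 w (-s) h) y z' := (hcon.mono (fun x hx => hx.1)).symm
    have h2 : Conn c true (rect 0 w (-s) h) y v := Con.step h1 hvz.symm ⟨hv, hcv⟩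
    have h3 : Conn c true (rect 0 w (-s) h) y v' := by
      rcases eq_or_ne v v' with rfl | hne
      · exact h2
      · exact Con.step h2 (hβ v v' hvv hne) ⟨hsub hv'r, hcv'⟩
    exact ⟨y, t, hy, ht, h3.trans (hvt.mono hsub)⟩

end TP
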