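import Pool.Agent.helper3.SP.SpecPP

/-! Module sp:PP20: locality and monotonicity of the core. -/

namespace TP

open DP MeasureTheory

theorem PP20 : PP20_stmt := by
  have hfin : ∀ (y : V) (n : ℕ) (k : Bool), (box y n \ opp 4 (zpt y n) (n / 8) k).Finite := by
    intro y n k
    exact (box_finite y n).subset fun _ h => h.1
  refine ⟨fun y n => ⟨?_, ?_⟩, fun y n => ⟨?_, ?_⟩⟩
  · have key : ∀ c c' : V → Bool, (∀ v ∈ box y n \ opp 4 (zpt y n) (n / 8) true, c v = c' v) →
        CoB c y n → CoB c' y n := by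
      rintro c c' h ⟨p, hp, u, hu, h1, h2, h3⟩
      exact ⟨p, hp, u, hu, h1, h2, (Conn.congr h).1 h3⟩
    exact Loc.ev (hfin y n true) fun c c' h => ⟨key c c' h, key c' c fun v hv => (h v hv).symm⟩
  · refine Mon.ev ?_
    rintro c c' h ⟨p, hp, u, hu, h1, h2, h3⟩
    exact ⟨p, hp, u, hu, h1, h2, Conn.colour_mono (fun v _ => h v) h3⟩
  · have key : ∀ c c' : V → Bool, (∀ v ∈ box y n \ opp 4 (zpt y n) (n / 8) false, c v = c' v) →
        CoW c y n → CoW c' y n := by
      rintro c c' h ⟨z, hz, hz', p, hp, u, hu, h1, h2, h3⟩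
      refine ⟨z, hz, hz', p, hp, u, hu, h1, h2, (Conn.congr fun v hv => ?_).1 h3⟩
      unfold rc
      split_ifs
      · rfl
      · exact h v hv
    exact Loc.ev (hfin y n false) fun c c' h => ⟨key c c' h, key c' c fun v hv => (h v hv).symm⟩
  · refine Mon.ev ?_
    rintro c c' h ⟨z, hz, hz', p, hp, u, hu, h1, h2, h3⟩
    refine ⟨z, hz, hz', p, hp, u, hu, h1, h2, Conn.colour_mono (fun v _ => ?_) h3⟩
    unfold rc
    split_ifs
    · exact fun h => h
    · exact h v

end TP
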