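import Pool.Agent.helper3.SP.SpecPP

/-! Module sp:PP22: the six standard arms as connected sets. -/

namespace TP

open DP MeasureTheory

theorem PP22_cluster {W : Set V} {u v : V} (h : Con W u v) : Con {z | Con W u z} u v := by
  refine Con.induct h (fun z => Con {z | Con W u z} u z) ?_ ?_
  · exact DP.Con.refl (DP.Con.refl h.mem_left)
  · intro a b ha hb hab _ ih
    exact DP.Con.tail ih hab (DP.Con.tail ih.mem_right hab hb)

theorem PP22 : PP22_stmt := by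
  rintro c x m n ⟨U, h1, h2, h3⟩
  have key : ∀ i, ∃ p : V, i < 6 → kol6 i = true → p ∈ bd x m ∧ ∃ u ∈ bd x n,
      sd (zp6 x m i) p ≤ m / 64 ∧ sd (zp6 x n i) u ≤ n / 64 ∧ Con (U i) p u := by
    intro i
    by_cases hi : i < 6 ∧ kol6 i = true
    · obtain ⟨-, p, hp, hq⟩ := h3 i hi.1 hi.2
      exact ⟨p, fun _ _ => ⟨hp, hq⟩⟩
    · exact ⟨0, fun h h' => absurd ⟨h, h'⟩ hi⟩
  choose p hp using key
  have hsub : ∀ i, {v | Con (U i) (p i) v} ⊆ U i := fun i v hv => DP.Con.mem_right hv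
  refine ⟨fun i => {v | Con (U i) (p i) v}, h1.mono (hsub 0) (hsub 1), h2.mono (hsub 3) (hsub 4),
    fun i hi hk => ⟨⟨fun v hv => ?_, fun z hz z' hz' => ?_⟩, ?_⟩⟩
  · obtain ⟨h4, h5⟩ := (h3 i hi hk).1 v (hsub i hv)
    exact ⟨h5, h4⟩
  · exact (DP.Con.symm (PP22_cluster hz)).trans (PP22_cluster hz')
  · obtain ⟨hb, u, hu, h4, h5, h6⟩ := hp i hi hk
    exact ⟨p i, DP.Con.refl h6.mem_left, u, h6, hb, hu, h4, h5⟩

end TP
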