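import Pool.Agent.helper3.SP.SpecPP

/-! Module sp:PP3: a pivotal site near `x` and the event `YCv` give the pair pattern. -/

namespace TP

open DP MeasureTheory

theorem PP3_mem {i : ℕ} {v : V} (h : (v.1 + v.2) % 2 = 0)
    (hv : v ∈ rect 1 (2 * 2 ^ i) 0 (hh (2 ^ i))) : v ∈ VV i := by
  classical
  obtain ⟨h1, h2, h3, h4⟩ := hv
  simp only [VV, Finset.mem_filter, Finset.mem_product, Finset.mem_Icc]
  exact ⟨⟨⟨by omega, h2⟩, h3, h4⟩, h⟩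

theorem PP3_even {i : ℕ} {v : V} (hv : v ∈ VV i) : (v.1 + v.2) % 2 = 0 := by
  classical
  simp only [VV, Finset.mem_filter] at hv
  exact hv.2

theorem PP3 (hPP1 : PP1_stmt) (hPP2 : PP2_stmt) : PP3_stmt := by
  rintro i b x y m₁ n₁ m₂ n₂ r R t h1 h2 h3 h4 h5 h6 h7 hbox ⟨v, hv, hvt⟩ h
  have hc : ∀ u : V, sd x u ≤ n₂ → u ∈ rect 1 (2 * 2 ^ i) 0 (hh (2 ^ i)) := fun u hu => hbox hu
  have c1 := hc (x.1 - n₂, x.2) (by unfold sd; simp)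
  have c2 := hc (x.1 + n₂, x.2) (by unfold sd; simp)
  have c3 := hc (x.1, x.2 - n₂) (by unfold sd; simp)
  have c4 := hc (x.1, x.2 + n₂) (by unfold sd; simp)
  have c1' : (1 : ℤ) ≤ x.1 - n₂ := c1.1
  have c2' : x.1 + n₂ ≤ 2 * 2 ^ i := c2.2.1
  have c3' : (0 : ℤ) ≤ x.2 - n₂ := c3.2.2.1
  have c4' : x.2 + n₂ ≤ (hh (2 ^ i) : ℤ) := c4.2.2.2
  have hvV : v ∈ VV i := hv.1
  rcases h with ⟨hb, hY⟩ | ⟨hb, hY⟩
  · have k1 : ∀ u ∈ {u : V | u.1 = 1}, n₂ ≤ sd x u := by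
      intro u hu
      have : u.1 = 1 := hu
      unfold sd
      omega
    have k2 : ∀ u ∈ {u : V | u.1 = 2 * 2 ^ i}, n₂ ≤ sd x u := by
      intro u hu
      have : u.1 = 2 * 2 ^ i := hu
      unfold sd
      omega
    obtain ⟨⟨z, hz1, hz2, hz3⟩, hw⟩ := hPP1 (col b) x y v m₁ n₁ m₂ n₂ r R t _ _ _ h1 h2 h3 h4 h5 h6
      hvt hbox k1 k2 hY ((hPP2 i b v hvV).1.1 hb) (((hPP2 i b v hvV).2.2.1 hb).1 hv)
    refine ⟨⟨z, ?_, hz2⟩, fun w hw1 hw2 => ?_⟩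
    · have hzV : z ∈ VV i := PP3_mem hz1 (hc z ((sd_triangle x y z).trans (by omega)))
      exact ((hPP2 i b z hzV).2.2.1 hb).2 hz3
    · exact ((hPP2 i b w hw1.1).2.2.1 hb).1 hw1 (hw w (PP3_even hw1.1) hw2)
  · have k1 : ∀ u ∈ {u : V | u.2 = 0}, n₂ ≤ sd x u := by
      intro u hu
      have : u.2 = 0 := hu
      unfold sd
      omega
    have k2 : ∀ u ∈ {u : V | u.2 = hh (2 ^ i)}, n₂ ≤ sd x u := by
      intro u hu
      have : u.2 = hh (2 ^ i) := hu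
      unfold sd
      omega
    obtain ⟨⟨z, hz1, hz2, hz3⟩, hw⟩ := hPP1 (fl (col b)) x y v m₁ n₁ m₂ n₂ r R t _ _ _ h1 h2 h3 h4
      h5 h6 hvt hbox k1 k2 hY ((hPP2 i b v hvV).2.1.1 hb) (((hPP2 i b v hvV).2.2.2 hb).1 hv)
    refine ⟨⟨z, ?_, hz2⟩, fun w hw1 hw2 => ?_⟩
    · have hzV : z ∈ VV i := PP3_mem hz1 (hc z ((sd_triangle x y z).trans (by omega)))
      exact ((hPP2 i b z hzV).2.2.2 hb).2 hz3
    · exact ((hPP2 i b w hw1.1).2.2.2 hb).1 hw1 (hw w (PP3_even hw1.1) hw2)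

end TP
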