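import Pool.Agent.helper3.SP.SpecPP
import Pool.Agent.helper61.TP.C12
import Pool.Agent.helper38.SP.K.LG

/-! Module sp:PP35: independence of the six blocks. -/

namespace TP

open DP MeasureTheory

theorem PP35_mk4 (x : V) (m n : ℕ) (k : Bool) :
    Loc (Ev fun c => Mk4 c x m n k) (ann x m n) := by
  have hsub : (HS true x n \ ((Dmark 4 x m).N k ∪ opp 4 (zpt x n) (n / 8) k)) ⊆ ann x m n := by
    rintro v ⟨h1, h2⟩
    refine ⟨?_, ?_⟩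
    · by_contra h
      exact h2 (Or.inl (Or.inl (not_le.1 h)))
    · have : v ∈ box x n := by simpa [HS] using h1
      exact this
  have key : ∀ c c' : V → Bool, (∀ v ∈ ann x m n, c v = c' v) → Mk4 c x m n k → Mk4 c' x m n k := by
    intro c c' h hM
    unfold Mk4 MrkC at hM ⊢
    rcases hM with hM | hM
    · left
      intro i hi hk
      obtain ⟨p, hp, u, hu, h1, h2⟩ := hM i hi hk
      exact ⟨p, hp, u, hu, h1, (Conn.congr fun v hv => h v (hsub hv)).1 h2⟩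
    · right
      intro i hi hk
      obtain ⟨p, hp, u, hu, h1, h2⟩ := hM i hi hk
      exact ⟨p, hp, u, hu, h1, (Conn.congr fun v hv => h v (hsub hv)).1 h2⟩
  exact Loc.ev (ann_finite x m n) fun c c' h => ⟨key c c' h, key c' c fun v hv => (h v hv).symm⟩

theorem PP35_gate (x : V) (m n : ℕ) : Loc (Ev fun c => Gate c x m n) (ann x m n) := by
  refine Loc.ev (ann_finite x _ _) fun c c' h => ?_
  unfold Gate
  rw [K.LG_three h, K.LG_four h]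

theorem PP35_core (y : V) (n : ℕ) :
    Loc (Ev fun c => CoB c y n ∧ CoW c y n) (box y n) := by
  have key : ∀ c c' : V → Bool, (∀ v ∈ box y n, c v = c' v) →
      CoB c y n ∧ CoW c y n → CoB c' y n ∧ CoW c' y n := by
    rintro c c' h ⟨⟨p, hp, u, hu, h1, h2, h3⟩, z, hz, hz', p', hp', u', hu', h1', h2', h3'⟩
    refine ⟨⟨p, hp, u, hu, h1, h2, (Conn.congr fun v hv => h v hv.1).1 h3⟩,
      z, hz, hz', p', hp', u', hu', h1', h2', (Conn.congr fun v hv => ?_).1 h3'⟩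
    unfold rc
    split_ifs
    · rfl
    · exact h v hv.1
  exact Loc.ev (box_finite y n) fun c c' h => ⟨key c c' h, key c' c fun v hv => (h v hv).symm⟩

theorem PP35_six (x : V) (m n : ℕ) :
    Loc (Ev fun c => SxB c x m n ∧ SxW c x m n) (ann x m n) := by
  refine ((SxB_loc x m n).inter (SxW_loc x m n)).mono ?_
  rintro v (hv | hv)
  · exact hv.1
  · exact hv.1

theorem PP35_dis {A B : Set V} {x : V} {a b : ℕ} (hA : ∀ v ∈ A, sd x v ≤ a)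
    (hB : ∀ v ∈ B, b ≤ sd x v) (h : a + 2 ≤ b) : BDis A B := by
  refine BDis.of_sd fun v hv w hw => ?_
  have h1 := sd_triangle x v w
  have h2 := hA v hv
  have h3 := hB w hw
  omega

theorem PP35_yc (x : V) (ℓ S : ℕ) : sd x (yc x ℓ S) = 32 * (S * ℓ) := by
  unfold sd yc
  simp only [sub_self, Int.natAbs_zero]
  have : (x.1 - (x.1 + 32 * (S : ℤ) * (ℓ : ℤ))) = -((32 * (S * ℓ) : ℕ) : ℤ) := by
    push_cast; ring
  rw [this, Int.natAbs_neg, Int.natAbs_natCast, Nat.max_zero]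

theorem PP35 : PP35_stmt := by
  intro x m₀ n₂ ℓ₁ ℓ S ℓ₃ hP
  obtain ⟨h1, h2, h3, h4, h5, h6⟩ := hP
  have hS1 : 16 * ℓ ≤ S * ℓ := Nat.mul_le_mul_right _ h4
  have hS2 : 256 * (S * ℓ) ≤ S ^ 3 * ℓ := by
    have e : S ^ 3 * ℓ = (S * S) * (S * ℓ) := by ring
    rw [e]
    exact Nat.mul_le_mul_right _ (Nat.mul_le_mul h4 h4)
  have hy := PP35_yc x ℓ S
  set y := yc x ℓ S with hydef
  set E1 : Set (V → Bool) := Ev fun c => Gate c x (2 * m₀) (16 * ℓ₁) ∧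
    Std c 4 true x (32 * ℓ₁) (Dmark 4 x m₀) with hE1
  set E2 : Set (V → Bool) := Ev fun c => CoB c y (32 * ℓ₁) ∧ CoW c y (32 * ℓ₁) with hE2
  set E3 : Set (V → Bool) := Ev fun c => SxB c x (256 * ℓ₁) (32 * ℓ) ∧
    SxW c x (256 * ℓ₁) (32 * ℓ) with hE3
  set E4 : Set (V → Bool) := Ev fun c => SxB c y (256 * ℓ₁) (32 * ℓ) ∧
    SxW c y (256 * ℓ₁) (32 * ℓ) with hE4
  set E5 : Set (V → Bool) := Ev fun c => SxB c x (32 * (S ^ 3 * ℓ)) (32 * ℓ₃) ∧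
    SxW c x (32 * (S ^ 3 * ℓ)) (32 * ℓ₃) with hE5
  set E6 : Set (V → Bool) := Ev fun c => Gate c x (512 * ℓ₃) n₂ ∧
    Std c 4 true x (2 * n₂) (Dmark 4 x (256 * ℓ₃)) with hE6
  have heq : (Ev fun c => (Gate c x (2 * m₀) (16 * ℓ₁) ∧ Gate c x (512 * ℓ₃) n₂) ∧
        ArB c x m₀ (2 * n₂) ℓ₁ ℓ S ℓ₃ ∧ ArW c x m₀ (2 * n₂) ℓ₁ ℓ S ℓ₃) =
      (((E1 ∩ E3) ∩ (E2 ∩ E4)) ∩ E5) ∩ E6 := by
    ext b
    constructor
    · rintro ⟨⟨g1, g2⟩, ⟨a1, a2, a3, a4, a5, a6⟩, b1, b2, b3, b4, b5, b6⟩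
      exact ⟨⟨⟨⟨⟨g1, a1, b1⟩, a3, b3⟩, ⟨a2, b2⟩, a4, b4⟩, a5, b5⟩, g2, a6, b6⟩
    · rintro ⟨⟨⟨⟨⟨g1, a1, b1⟩, a3, b3⟩, ⟨a2, b2⟩, a4, b4⟩, a5, b5⟩, g2, a6, b6⟩
      exact ⟨⟨g1, g2⟩, ⟨a1, a2, a3, a4, a5, a6⟩, b1, b2, b3, b4, b5, b6⟩
  have l1 : Loc E1 (box x (32 * ℓ₁)) := by
    refine ((PP35_gate x (2 * m₀) (16 * ℓ₁)).inter
      ((PP35_mk4 x m₀ (32 * ℓ₁) true).inter (PP35_mk4 x m₀ (32 * ℓ₁) false))).mono ?_
    rintro v (hv | hv | hv)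
    · have : sd x v ≤ 16 * ℓ₁ := hv.2
      show sd x v ≤ 32 * ℓ₁
      omega
    · exact hv.2
    · exact hv.2
  have l2 : Loc E2 (box y (32 * ℓ₁)) := PP35_core y _
  have l3 : Loc E3 (ann x (256 * ℓ₁) (32 * ℓ)) := PP35_six x _ _
  have l4 : Loc E4 (ann y (256 * ℓ₁) (32 * ℓ)) := PP35_six y _ _
  have l5 : Loc E5 (ann x (32 * (S ^ 3 * ℓ)) (32 * ℓ₃)) := PP35_six x _ _
  have l6 : Loc E6 {v | 256 * ℓ₃ ≤ sd x v} := by
    refine ((PP35_gate x (512 * ℓ₃) n₂).inter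
      ((PP35_mk4 x (256 * ℓ₃) (2 * n₂) true).inter
        (PP35_mk4 x (256 * ℓ₃) (2 * n₂) false))).mono ?_
    rintro v (hv | hv | hv)
    · have : 512 * ℓ₃ ≤ sd x v := hv.1
      show 256 * ℓ₃ ≤ sd x v
      omega
    · exact hv.1
    · exact hv.1
  have l13 : Loc (E1 ∩ E3) (box x (32 * ℓ)) := by
    refine (l1.inter l3).mono ?_
    rintro v (hv | hv)
    · have : sd x v ≤ 32 * ℓ₁ := hv
      show sd x v ≤ 32 * ℓ
      omega
    · exact hv.2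
  have l24 : Loc (E2 ∩ E4) (box y (32 * ℓ)) := by
    refine (l2.inter l4).mono ?_
    rintro v (hv | hv)
    · have : sd y v ≤ 32 * ℓ₁ := hv
      show sd y v ≤ 32 * ℓ
      omega
    · exact hv.2
  have l1234 : Loc ((E1 ∩ E3) ∩ (E2 ∩ E4)) (box x (32 * (S * ℓ) + 32 * ℓ)) := by
    refine (l13.inter l24).mono ?_
    rintro v (hv | hv)
    · have : sd x v ≤ 32 * ℓ := hv
      show sd x v ≤ 32 * (S * ℓ) + 32 * ℓ
      omega
    · have t1 : sd y v ≤ 32 * ℓ := hv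
      have t2 := sd_triangle x y v
      show sd x v ≤ 32 * (S * ℓ) + 32 * ℓ
      omega
  have l12345 : Loc (((E1 ∩ E3) ∩ (E2 ∩ E4)) ∩ E5) (box x (32 * ℓ₃)) := by
    refine (l1234.inter l5).mono ?_
    rintro v (hv | hv)
    · have : sd x v ≤ 32 * (S * ℓ) + 32 * ℓ := hv
      show sd x v ≤ 32 * ℓ₃
      omega
    · exact hv.2
  have d13 : BDis (box x (32 * ℓ₁)) (ann x (256 * ℓ₁) (32 * ℓ)) :=
    PP35_dis (fun v hv => hv) (fun v hv => hv.1) (by omega)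
  have d24 : BDis (box y (32 * ℓ₁)) (ann y (256 * ℓ₁) (32 * ℓ)) :=
    PP35_dis (fun v hv => hv) (fun v hv => hv.1) (by omega)
  have d1324 : BDis (box x (32 * ℓ)) (box y (32 * ℓ)) := by
    refine PP35_dis (b := 32 * (S * ℓ) - 32 * ℓ) (fun v hv => hv) (fun v hv => ?_) (by omega)
    have t1 : sd y v ≤ 32 * ℓ := hv
    have t2 := sd_triangle x v y
    rw [sd_comm v y] at t2
    omega
  have d5 : BDis (box x (32 * (S * ℓ) + 32 * ℓ)) (ann x (32 * (S ^ 3 * ℓ)) (32 * ℓ₃)) :=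
    PP35_dis (fun v hv => hv) (fun v hv => hv.1) (by omega)
  have d6 : BDis (box x (32 * ℓ₃)) {v | 256 * ℓ₃ ≤ sd x v} :=
    PP35_dis (fun v hv => hv) (fun v hv => hv) (by omega)
  rw [heq, C2_indep d6 l12345 l6, C2_indep d5 l1234 l5, C2_indep d1324 l13 l24,
    C2_indep d13 l1 l3, C2_indep d24 l2 l4]
  ring

end TP
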