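import Pool.Agent.helper3.SP.SpecPP
import Pool.Agent.helper38.SP.K.LG

/-! Module sp:PP5: locality of the event of the pair pattern. -/

namespace TP

open DP MeasureTheory

theorem PP5_rc {A : Set V} {c c' : V → Bool} (h : ∀ v ∈ A, c v = c' v) (w : V) (k : Bool) :
    ∀ v ∈ A, rc c w k v = rc c' w k v := by
  intro v hv
  unfold rc
  split_ifs
  · rfl
  · exact h v hv

theorem PP5 : PP5_stmt := by
  intro g x p m s hg hm
  have e1 : 2 ^ (p - 4) ≤ 2 ^ (p + m + 3 * s + m + 4 + g) :=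
    Nat.pow_le_pow_right (by norm_num) (by omega)
  have e2 : 2 ^ (p - g - 4) ≤ 2 ^ (p + m + 3 * s + m + 4) :=
    Nat.pow_le_pow_right (by norm_num) (by omega)
  have key : ∀ c c' : V → Bool,
      (∀ v ∈ ann x (2 ^ (p - g - 4)) (2 ^ (p + m + 3 * s + m + 4 + g)), c v = c' v) →
      YCv c x (yy true x (2 ^ (p + m + s))) (2 ^ (p - g - 4)) (2 ^ (p - 4))
        (2 ^ (p + m + 3 * s + m + 4)) (2 ^ (p + m + 3 * s + m + 4 + g)) (2 ^ (p + 1))
        (2 ^ (p + m + 3 * s + m - 1)) →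
      YCv c' x (yy true x (2 ^ (p + m + s))) (2 ^ (p - g - 4)) (2 ^ (p - 4))
        (2 ^ (p + m + 3 * s + m + 4)) (2 ^ (p + m + 3 * s + m + 4 + g)) (2 ^ (p + 1))
        (2 ^ (p + m + 3 * s + m - 1)) := by
    rintro c c' h ⟨h1, h2, h3, z, hz, hz', h4⟩
    have a1 : ∀ v ∈ ann x (2 ^ (p - g - 4)) (2 ^ (p - 4)), c v = c' v :=
      fun v hv => h v ⟨hv.1, hv.2.trans e1⟩
    have a2 : ∀ v ∈ ann x (2 ^ (p + m + 3 * s + m + 4)) (2 ^ (p + m + 3 * s + m + 4 + g)),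
        c v = c' v := fun v hv => h v ⟨e2.trans hv.1, hv.2⟩
    refine ⟨?_, ?_, fun w hw hw' => ?_, z, hz, hz', ?_⟩
    · unfold Gate at h1 ⊢
      rwa [← K.LG_three a1, ← K.LG_four a1]
    · unfold Gate at h2 ⊢
      rwa [← K.LG_three a2, ← K.LG_four a2]
    · exact (K.LG_four (PP5_rc h w false)).1 (h3 w hw hw')
    · exact fun h5 => h4 ((K.LG_four (PP5_rc h z false)).2 h5)
  exact Loc.ev (ann_finite x _ _) fun c c' h => ⟨key c c' h, key c' c fun v hv => (h v hv).symm⟩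

end TP
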