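import Pool.Agent.helper31.SP.SpecTL
import Pool.Agent.helper32.TP.PSV

/-! # Project sp, module TL12: two-point function of the spectral sample -/

namespace TP

open DP MeasureTheory

theorem TL12_evp (v : V) : Even (evp v).1 ∧ Even (evp v).2 ∧ sd (evp v) v ≤ 1 := by
  unfold evp sd
  refine ⟨?_, ?_, ?_⟩
  · rw [Int.even_iff]
    dsimp only
    omega
  · rw [Int.even_iff]
    dsimp only
    omega
  · dsimp only
    omega

theorem TL12_mem_bxF {i : ℕ} {x v : V} {r : ℕ} (h : v ∈ bxF i x r) : sd x v ≤ r :=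
  (Finset.mem_filter.1 h).2

theorem TL12_bulk {i k t : ℕ} {x : V} (h : x ∈ GB i k t) : Bulk i k x := by
  classical
  unfold GB at h
  exact (Finset.mem_filter.1 h).2.2.2

/-- TL12 -/
theorem TL12 (h0 : TL0_stmt) (h3 : TL3_stmt) (h4 : TL4_stmt) (h5 : TL5_stmt) (h11 : TL11_stmt)
    (hAM : DP.AM_stmt) (hTRQ : TRQ_stmt) (hQMX : QMX_stmt) (hEXR : EXR_stmt) (hQZ : QZ_stmt) :
    TL12_stmt := by
  classical
  obtain ⟨C, hC, i₁, hq⟩ := hQMX
  obtain ⟨D, hD, i₂, he⟩ := hEXR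
  have hprof : Profile (fun _ : V => (0 : ℝ)) := fun v => ⟨le_rfl, zero_le_one⟩
  have hC0 : (0 : ℝ) < C := by linarith
  have hD0 : (0 : ℝ) < D := by linarith
  refine ⟨max (max i₁ i₂) 2, fun m₀ hm => ⟨C ^ 5 * D ^ 3 + D, by positivity, ?_⟩⟩
  have hm1 : i₁ ≤ m₀ := ((le_max_left _ _).trans (le_max_left _ _)).trans hm
  have hm2 : i₂ ≤ m₀ := ((le_max_right _ _).trans (le_max_left _ _)).trans hm
  have hm3 : 2 ≤ m₀ := (le_max_right _ _).trans hm
  have hal : ∀ p q, a4 p q = qa (fun _ => 0) 4 0 (2 ^ p) (2 ^ q) := by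
    intro p q
    rw [← hQZ 4 0 (2 ^ p) (2 ^ q), PSV_ar]
    rfl
  have hal0 : ∀ p q, 0 ≤ a4 p q := fun p q => measureReal_nonneg
  have h00 : Even ((0 : V).1 + (0 : V).2) := by simp
  have htr : ∀ (v : V) (m n : ℕ), Pr (Ev fun c => ar 4 c (evp v) m n) =
      Pr (Ev fun c => ar 4 c 0 m n) := fun v m n =>
    (hTRQ 0 4 (evp v) m n (TL12_evp v).1 (TL12_evp v).2.1).2
  intro i k t x u v hx hmt hti hu hv
  have hu1 := TL12_mem_bxF hu
  have hv1 := TL12_mem_bxF hv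
  have hbulk := TL12_bulk hx
  have p1 : (2 : ℕ) ^ t ≤ 2 ^ (i - k - 6) := Nat.pow_le_pow_right (by norm_num) (by omega)
  have p2 : (2 : ℕ) ^ (i - k) = 64 * 2 ^ (i - k - 6) := by
    rw [show i - k = (i - k - 6) + 6 by omega, pow_add]
    simp [Nat.mul_comm]
  have p3 : (2 : ℕ) ^ (i - k - 1) = 32 * 2 ^ (i - k - 6) := by
    rw [show i - k - 1 = (i - k - 6) + 5 by omega, pow_add]
    simp [Nat.mul_comm]
  have p4 : (2 : ℕ) ^ m₀ ≤ 2 ^ t := Nat.pow_le_pow_right (by norm_num) hmt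
  have p5 : (2 : ℕ) ^ 2 ≤ 2 ^ m₀ := Nat.pow_le_pow_right (by norm_num) hm3
  -- the last step outwards
  have hlast : a4 m₀ (i - k - 1) ≤ D * a4 m₀ (i - k) := by
    have := (he 4 (fun _ => 0) 0 m₀ (i - k - 1) 1 (Or.inr rfl) hprof h00 hm2 (by omega)).1
    rw [show i - k - 1 + 1 = i - k by omega, ← hal, ← hal, pow_one] at this
    exact this
  constructor
  · -- one point
    have e1 : PS i (fun X => u ∈ X ∧ v ∈ X) ≤ PS i (fun X => u ∈ X) :=
      (h0 (Fc i) (VV i)).2.1 _ _ fun T _ hT => hT.1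
    have e2 : PS i (fun X => u ∈ X) ≤ Pr (Piv {u} (Fc i)) := (h3 (VV i) (Fc i) (h4.1 i)).1 u
    have e3 : Piv {u} (Fc i) ⊆ Ev fun c => ar 4 c (evp u) (2 ^ m₀) (2 ^ (i - k - 1)) := by
      intro b hb
      have hfour := h5 i b {u} (evp u) 1 (2 ^ (i - k - 1))
        (by
          rintro w rfl
          exact (TL12_evp w).2.2) (by omega)
        (by
          refine Set.Subset.trans ?_ hbulk
          intro w hw
          have a1 : sd (evp u) w ≤ 2 ^ (i - k - 1) := hw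
          have a2 := (TL12_evp u).2.2
          have a3 := sd_triangle x u w
          have a4 := sd_triangle u (evp u) w
          rw [sd_comm u (evp u)] at a4
          show sd x w ≤ 2 ^ (i - k)
          omega) hb
      have har : ar 4 (col b) (evp u) (1 + 2) (2 ^ (i - k - 1)) := by
        rw [ar, if_pos rfl]
        exact hfour
      exact hAM (col b) 4 (evp u) (1 + 2) (2 ^ m₀) (2 ^ (i - k - 1)) (2 ^ (i - k - 1)) (Or.inr rfl)
        (by omega) (by omega) le_rfl har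
    have e4 : Pr (Ev fun c => ar 4 c (evp u) (2 ^ m₀) (2 ^ (i - k - 1))) = a4 m₀ (i - k - 1) := by
      rw [htr, PSV_ar]
      rfl
    have e5 : PS i (fun X => u ∈ X ∧ v ∈ X) ≤ a4 m₀ (i - k - 1) :=
      (e1.trans e2).trans ((PSV_mono e3).trans e4.le)
    have e6 : D * a4 m₀ (i - k) ≤ (C ^ 5 * D ^ 3 + D) * a4 m₀ (i - k) := by
      refine mul_le_mul_of_nonneg_right ?_ (hal0 _ _)
      have : 0 < C ^ 5 * D ^ 3 := by positivity
      linarith
    exact (e5.trans hlast).trans e6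
  · -- two points
    intro l hl hl1 hl2
    have huv : sd u v ≤ 2 * 2 ^ t := by
      have a1 := sd_triangle u x v
      rw [sd_comm u x] at a1
      omega
    have hlt : l ≤ t + 1 := by
      by_contra h
      push Not at h
      have h6 : 2 ^ (t + 2) ≤ 2 ^ l := Nat.pow_le_pow_right (by norm_num) (by omega)
      have h7 : 2 ^ (t + 2) = 4 * 2 ^ t := by rw [pow_add]; simp [Nat.mul_comm]
      have h8 : 0 < 2 ^ t := by positivity
      omega
    have hne : u ≠ v := by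
      rintro rfl
      rw [sd_self] at hl1
      have : 0 < 2 ^ l := by positivity
      omega
    have q1 : (2 : ℕ) ^ l = 4 * 2 ^ (l - 2) := by
      rw [show l = (l - 2) + 2 by omega, pow_add]
      simp [Nat.mul_comm]
    have q2 : (2 : ℕ) ^ (l + 1) = 8 * 2 ^ (l - 2) := by
      rw [show l + 1 = (l - 2) + 3 by omega, pow_add]
      simp [Nat.mul_comm]
    have q3 : (2 : ℕ) ^ (l + 2) = 16 * 2 ^ (l - 2) := by
      rw [show l + 2 = (l - 2) + 4 by omega, pow_add]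
      simp [Nat.mul_comm]
    have q4 : (2 : ℕ) ^ 4 ≤ 2 ^ (l - 2) := Nat.pow_le_pow_right (by norm_num) (by omega)
    have hball : ∀ w, sd (evp v) w ≤ 2 ^ (l - 2) → 2 ^ (l - 2) + 2 ≤ sd (evp u) w ∧
        sd (evp u) w + 2 ≤ 2 ^ (l + 2) := by
      intro w hw
      have a1 := (TL12_evp u).2.2
      have a2 := (TL12_evp v).2.2
      have a3 := sd_triangle u (evp u) v
      have a4 := sd_triangle (evp u) w v
      have a5 := sd_triangle w (evp v) v
      have a6 := sd_triangle (evp u) u w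
      have a7 := sd_triangle u v w
      have a8 := sd_triangle v (evp v) w
      rw [sd_comm u (evp u)] at a3
      rw [sd_comm w (evp v)] at a5
      rw [sd_comm v (evp v)] at a8
      omega
    have e2 := (h3 (VV i) (Fc i) (h4.1 i)).2 u v hne
    have hsub : {b | b ∈ Piv {u, v} (Fc i) ∧ (∃ a, Function.update b v a ∈ Piv {u} (Fc i)) ∧
        ∃ a, Function.update b u a ∈ Piv {v} (Fc i)} ⊆
        (Ev fun c => ar 4 c (evp u) (2 ^ m₀) (2 ^ (l - 2))) ∩
          ((Ev fun c => ar 4 c (evp v) (2 ^ m₀) (2 ^ (l - 2))) ∩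
            (Ev fun c => ar 4 c (evp u) (2 ^ (l + 2)) (2 ^ (i - k - 1)))) := by
      rintro b ⟨hb1, hb2, hb3⟩
      obtain ⟨g1, g2, g3⟩ := h11 m₀ i k t l x u v b hm3 hl hx hti hu hv hl1 hl2 hb1 hb2 hb3
      refine ⟨?_, ?_, ?_⟩
      · show ar 4 (col b) _ _ _
        rw [ar, if_pos rfl]
        exact g1
      · show ar 4 (col b) _ _ _
        rw [ar, if_pos rfl]
        exact g2
      · show ar 4 (col b) _ _ _
        rw [ar, if_pos rfl]
        exact g3
    have bdis : ∀ (z : V) (A A' : Set V), (∀ w ∈ A, ∀ w' ∈ A', sd z w + 2 ≤ sd z w') →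
        BDis A A' := by
      intro z A A' h
      apply BDis.of_sd
      intro w hw w' hw'
      have a1 := h w hw w' hw'
      have a2 : sd z w' ≤ sd z w + sd w w' := sd_triangle z w w'
      omega
    have hind1 : Pr ((Ev fun c => ar 4 c (evp v) (2 ^ m₀) (2 ^ (l - 2))) ∩
        (Ev fun c => ar 4 c (evp u) (2 ^ (l + 2)) (2 ^ (i - k - 1)))) =
        Pr (Ev fun c => ar 4 c (evp v) (2 ^ m₀) (2 ^ (l - 2))) *
          Pr (Ev fun c => ar 4 c (evp u) (2 ^ (l + 2)) (2 ^ (i - k - 1))) := by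
      refine PSV_indep (bdis (evp u) _ _ ?_) (PSV_loc 4 _ _ _) (PSV_loc 4 _ _ _)
      intro w hw w' hw'
      have a1 := (hball w hw.2).2
      have a2 : 2 ^ (l + 2) ≤ sd (evp u) w' := hw'.1
      omega
    have hind2 : Pr ((Ev fun c => ar 4 c (evp u) (2 ^ m₀) (2 ^ (l - 2))) ∩
        ((Ev fun c => ar 4 c (evp v) (2 ^ m₀) (2 ^ (l - 2))) ∩
          (Ev fun c => ar 4 c (evp u) (2 ^ (l + 2)) (2 ^ (i - k - 1))))) =
        Pr (Ev fun c => ar 4 c (evp u) (2 ^ m₀) (2 ^ (l - 2))) *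
          Pr ((Ev fun c => ar 4 c (evp v) (2 ^ m₀) (2 ^ (l - 2))) ∩
            (Ev fun c => ar 4 c (evp u) (2 ^ (l + 2)) (2 ^ (i - k - 1)))) := by
      refine PSV_indep (bdis (evp u) _ _ ?_) (PSV_loc 4 _ _ _)
        (Loc.inter (PSV_loc 4 _ _ _) (PSV_loc 4 _ _ _))
      intro w hw w' hw'
      have a0 : sd (evp u) w ≤ 2 ^ (l - 2) := hw.2
      rcases hw' with hw' | hw'
      · have a1 := (hball w' hw'.2).1
        omega
      · have a2 : 2 ^ (l + 2) ≤ sd (evp u) w' := hw'.1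
        omega
    refine e2.trans ((PSV_mono hsub).trans ?_)
    rw [hind2, hind1, htr, htr, htr, PSV_ar, PSV_ar]
    show a4 m₀ (l - 2) * (a4 m₀ (l - 2) * a4 (l + 2) (i - k - 1)) ≤ _
    have r1 := (hq 4 (fun _ => 0) 0 m₀ (l - 2) 4 (i - k - 1) (Or.inr rfl) hprof h00 hm1 (by omega)
      (by omega)).1
    have r2 := (he 4 (fun _ => 0) 0 m₀ (l - 2) 2 (Or.inr rfl) hprof h00 hm2 (by omega)).1
    rw [show l - 2 + 4 = l + 2 by omega, ← hal, ← hal, ← hal] at r1
    rw [show l - 2 + 2 = l by omega, ← hal, ← hal] at r2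
    have n1 : 0 ≤ a4 m₀ (l - 2) * a4 (l + 2) (i - k - 1) := mul_nonneg (hal0 _ _) (hal0 _ _)
    have n2 : 0 ≤ D ^ 2 * a4 m₀ l := mul_nonneg (by positivity) (hal0 _ _)
    have n3 : 0 ≤ a4 m₀ l * a4 m₀ (i - k) := mul_nonneg (hal0 _ _) (hal0 _ _)
    calc a4 m₀ (l - 2) * (a4 m₀ (l - 2) * a4 (l + 2) (i - k - 1))
        ≤ (D ^ 2 * a4 m₀ l) * (C ^ (4 + 1) * a4 m₀ (i - k - 1)) := mul_le_mul r2 r1 n1 n2
      _ ≤ (D ^ 2 * a4 m₀ l) * (C ^ (4 + 1) * (D * a4 m₀ (i - k))) :=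
        mul_le_mul_of_nonneg_left (mul_le_mul_of_nonneg_left hlast (by positivity)) n2
      _ = C ^ 5 * D ^ 3 * (a4 m₀ l * a4 m₀ (i - k)) := by ring
      _ ≤ (C ^ 5 * D ^ 3 + D) * (a4 m₀ l * a4 m₀ (i - k)) :=
        mul_le_mul_of_nonneg_right (by linarith) n3

end TP
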